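import Pool.Agent.H.MP_88bd66_lc.D

/-! For every finite class `Φ` of finite semigroups the kernels of `HP(Φ)` and of `HPS(Φ)` are
decidable. -/

namespace Pool.Agent.Results.MP_88bd66_lc.HP

open Function

/-- A finite (nonempty) semigroup. -/
structure FinSg where
  carrier : Type
  [sg : Semigroup carrier]
  [fin : Finite carrier]
  [ne : Nonempty carrier]

attribute [instance] FinSg.sg FinSg.fin FinSg.ne

/-- Classes of finite semigroups. -/
abbrev Cl : Type 1 := FinSg → Prop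

/-- Homomorphic images of members of `C`. -/
def H (C : Cl) : Cl := fun N => ∃ T, C T ∧ ∃ f : T.carrier →ₙ* N.carrier, Surjective f

/-- Semigroups embeddable into members of `C`. -/
def S (C : Cl) : Cl := fun N => ∃ T, C T ∧ ∃ f : N.carrier →ₙ* T.carrier, Injective f

/-- Direct products of `n + 1 ≥ 1` members of `C`, up to isomorphism. -/
def P (C : Cl) : Cl := fun N => ∃ (n : ℕ) (T : Fin (n + 1) → FinSg), (∀ i, C (T i)) ∧
  Nonempty (N.carrier ≃* ∀ i, (T i).carrier)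

/-- The isomorphism class of `M`. -/
def iso (M : FinSg) : Cl := fun N => Nonempty (N.carrier ≃* M.carrier)

/-- The kernel of a class: the members whose generated pseudovariety lies in the class. -/
def Cor (K : Cl) : Cl := fun M => K M ∧ ∀ N, H (S (P (iso M))) N → K N

/-- A class with finitely many isomorphism types. -/
def FiniteCl (Φ : Cl) : Prop := ∃ (m : ℕ) (T : Fin m → FinSg), ∀ N, Φ N ↔ ∃ i, iso (T i) N

/-- The multiplication table of `M` for a numbering `e` of its elements. -/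
def table (M : FinSg) {n : ℕ} (e : Fin n ≃ M.carrier) : List (List ℕ) :=
  List.ofFn fun i => List.ofFn fun j => (e.symm (e i * e j) : ℕ)

/-- Some algorithm, given a multiplication table, decides membership in `C`. -/
def Decid (C : Cl) : Prop := ∃ f : List (List ℕ) → Bool, Computable f ∧
  ∀ (M : FinSg) (n : ℕ) (e : Fin n ≃ M.carrier), f (table M e) = true ↔ C M

open Pool.Agent.H.MP_88bd66_lc

theorem hsp_iff (M N : FinSg) : H (S (P (iso M))) N ↔ IdLe M.carrier N.carrier := by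
  constructor
  · rintro ⟨F, ⟨T, ⟨n, U, hU, ⟨φ⟩⟩, g, hg⟩, f, hf⟩
    refine ((IdLe.trans (idLe_pi (fun i => (U i).carrier) fun i => ?_)
      (idLe_inj φ.toMulHom φ.injective)).trans (idLe_inj g hg)).trans (idLe_surj f hf)
    obtain ⟨ψ⟩ := hU i
    exact idLe_inj ψ.toMulHom ψ.injective
  · intro h
    obtain ⟨F, f, hf⟩ := birkhoff h
    have : Nonempty F := hf.nonempty
    obtain ⟨n, ⟨e⟩⟩ : ∃ n, Nonempty ((N.carrier → M.carrier) ≃ Fin (n + 1)) := by
      obtain ⟨n, hn⟩ := Nat.exists_eq_succ_of_ne_zero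
        (Nat.card_pos (α := N.carrier → M.carrier)).ne'
      exact ⟨n, ⟨Finite.equivFinOfCardEq hn⟩⟩
    exact ⟨⟨F⟩, ⟨⟨(N.carrier → M.carrier) → M.carrier⟩,
      ⟨n, fun _ => M, fun _ => ⟨MulEquiv.refl _⟩, ⟨MulEquiv.arrowCongr e (MulEquiv.refl _)⟩⟩,
      MulMemClass.subtype F, Subtype.val_injective⟩, f, hf⟩

theorem main (Ψ : Cl) (B : ℕ) (hB : ∀ T, Ψ T → Nat.card T.carrier ≤ B) :
    Decid (Cor (H (P Ψ))) := by
  have hW : ∀ M, Cor (H (P Ψ)) M → W B (ex B) M.carrier := by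
    intro M hM
    apply Hyp.toW
    intro r N _ _ φ hφ
    have : Finite N := Finite.of_injective φ hφ
    obtain ⟨T, ⟨n, U, hU, ⟨ψ⟩⟩, f, hf⟩ := hM.2 ⟨N⟩ ((hsp_iff _ _).2
      ((idLe_pi (fun _ => M.carrier) fun _ _ _ _ _ _ h => h).trans (idLe_inj φ hφ)))
    exact ⟨⟨Fin (n + 1), inferInstance, fun i => (U i).carrier, inferInstance, inferInstance,
      fun i => hB _ (hU i), f.comp ψ.symm.toMulHom, hf.comp ψ.symm.surjective⟩⟩
  obtain ⟨f, hf, hf'⟩ := types_prim (bd B (ex B))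
    {τ | ∃ M, Cor (H (P Ψ)) M ∧ τ = {p | p ∈ Ids (bd B (ex B)) ∧ Sat M.carrier p.1 p.2}}
    (by rintro τ ⟨M, -, rfl⟩ p hp; exact hp.1)
  refine ⟨f, hf, fun M' n e => (hf' M'.carrier n e).trans ⟨?_, fun h => ?_⟩⟩
  · rintro ⟨τ, ⟨M, hM, rfl⟩, h⟩
    have h1 : IdLe M.carrier M'.carrier :=
      (short_of_ids fun p hp hs => h p ⟨hp, hs⟩).idLe (hW M hM)
    exact ⟨hM.2 _ ((hsp_iff _ _).2 h1), fun N hN =>
      hM.2 _ ((hsp_iff _ _).2 (h1.trans ((hsp_iff _ _).1 hN)))⟩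
  · exact ⟨_, ⟨M', h, rfl⟩, fun p hp => hp.2⟩

theorem result (Φ : Cl) (hΦ : FiniteCl Φ) :
    Decid (Cor (H (P Φ))) ∧ Decid (Cor (H (P (S Φ)))) := by
  obtain ⟨m, T, hT⟩ := hΦ
  have h1 : ∀ N, Φ N → Nat.card N.carrier ≤ Finset.univ.sup fun i => Nat.card (T i).carrier := by
    intro N hN
    obtain ⟨i, ⟨ψ⟩⟩ := (hT N).1 hN
    rw [Nat.card_congr ψ.toEquiv]
    exact Finset.le_sup (f := fun i => Nat.card (T i).carrier) (Finset.mem_univ i)
  refine ⟨main Φ _ h1, main (S Φ) (Finset.univ.sup fun i => Nat.card (T i).carrier) ?_⟩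
  rintro N ⟨U, hU, f, hf⟩
  exact (Nat.card_le_card_of_injective f hf).trans (h1 U hU)

end Pool.Agent.Results.MP_88bd66_lc.HP
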